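import Pool.Agent.W517.Gr.ProjDefs

/-!
# Schur forms of Hermitian holomorphic vector bundles
-/

set_option autoImplicit false

namespace Pool.Agent.Y88.GR

open Pool.Agent.W517.Gr

/-- The form `c_m(E, h)` at `z` for an integer `m`: `1` for `m = 0`, and `0` for `m < 0` and for
`m > r`. -/
noncomputable def chernZ {n r : ℕ} (h : Cn n → Matrix (Fin r) (Fin r) ℂ) (z : Cn n) (m : ℤ) :
    FormAlg n :=
  if m = 0 then 1 else if m < 0 ∨ (r : ℤ) < m then 0 else chernForm h m.toNat z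

/-- The Schur form `S_λ(c(E, h)) = det [c_{λ_j - j + l}]_{1 ≤ j, l ≤ k}` at `z`. -/
noncomputable def schurForm {n r k : ℕ} (h : Cn n → Matrix (Fin r) (Fin r) ℂ) (lam : Fin k → ℕ)
    (z : Cn n) : FormAlg n :=
  (Matrix.of fun j l : Fin k => chernZ h z ((lam j : ℤ) - (j : ℕ) + (l : ℕ))).det

end Pool.Agent.Y88.GR
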