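import Pool.Agent.Y240.Gr.Rea

set_option autoImplicit false
set_option linter.unusedSectionVars false

/-! Metrics with a prescribed Griffiths semipositive tensor as curvature at a point. -/

namespace Pool.Agent.Y88.GR

open Finset Filter Topology
open scoped ContDiff ComplexOrder Matrix
open Pool.Agent.Y240.Gr
open Pool.Agent.W517.Gr (Cn sf ip mul_star_self ip_self FormAlg Forms wedge2
  dzf dzbf evalForm
  realFrame curvatureForm chernForm chernCurvature IsMetricOnO1 GriffithsPositiveAt inChart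
  Cutoff exists_Cutoff CForm)

variable {r n : ℕ}

/-- the tensor of the metric: `N (T + δ Id) - Id`. -/
noncomputable def SG (T : Fin r → Fin r → Fin n → Fin n → ℤ) (N δ : ℝ) (a b : Fin r)
    (i j : Fin n) : ℝ :=
  N * (T a b i j : ℤ) + (N * δ - 1) * ((if a = b then 1 else 0) * (if i = j then 1 else 0))

/-- symmetric tensors -/
def TSym (T : Fin r → Fin r → Fin n → Fin n → ℤ) : Prop := ∀ a b i j, T b a j i = T a b i j

/-- Griffiths semipositive tensors -/
def TPos (T : Fin r → Fin r → Fin n → Fin n → ℤ) : Prop :=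
  ∀ (x : Fin r → ℂ) (ξ : Fin n → ℂ), ∃ t : ℝ, 0 ≤ t ∧ ∑ a, ∑ b, ∑ i, ∑ j,
    ((T a b i j : ℤ) : ℂ) * (star (x a) * x b * (ξ i * star (ξ j))) = (t : ℂ)

variable {T : Fin r → Fin r → Fin n → Fin n → ℤ}

theorem SG_symm (hT : TSym T) (N δ : ℝ) (a b : Fin r) (i j : Fin n) :
    SG T N δ b a j i = SG T N δ a b i j := by
  unfold SG
  rw [hT]
  simp only [eq_comm]

theorem sf_SG (N δ : ℝ) (x y : Fin n → ℂ) (a b : Fin r) :
    sf (SG T N δ) x y a b = (N : ℂ) * (∑ i, ∑ j, ((T a b i j : ℤ) : ℂ) * (x i * star (y j))) +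
      ((N * δ - 1 : ℝ) : ℂ) * ((if a = b then 1 else 0) * ip x y) := by
  simp only [sf, Matrix.of_apply, SG]
  have h : ip x y = ∑ i, ∑ j, (if i = j then (1 : ℂ) else 0) * (x i * star (y j)) := by
    unfold ip
    refine Finset.sum_congr rfl fun i _ => ?_
    rw [Finset.sum_eq_single i]
    · simp
    · intro j _ hj
      rw [if_neg (Ne.symm hj), zero_mul]
    · simp
  rw [h]
  simp only [Finset.mul_sum]
  rw [← Finset.sum_add_distrib]
  refine Finset.sum_congr rfl fun i _ => ?_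
  rw [← Finset.sum_add_distrib]
  refine Finset.sum_congr rfl fun j _ => ?_
  split_ifs <;> push_cast <;> ring

theorem sx_SG (N δ : ℝ) (x : Fin r → ℂ) (ξ : Fin n → ℂ) :
    sx (SG T N δ) x ξ ξ = (N : ℂ) * (∑ a, ∑ b, ∑ i, ∑ j, ((T a b i j : ℤ) : ℂ) *
      (star (x a) * x b * (ξ i * star (ξ j)))) + ((N * δ - 1 : ℝ) : ℂ) *
        ((nsq x * nsq ξ : ℝ) : ℂ) := by
  have h1 : sx (SG T N δ) x ξ ξ = ∑ a, ∑ b, star (x a) * (sf (SG T N δ) ξ ξ a b * x b) := by
    simp only [sx, dotProduct, Matrix.mulVec, Pi.star_apply, Finset.mul_sum]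
  rw [h1]
  simp only [sf_SG]
  have h2 : ((nsq x * nsq ξ : ℝ) : ℂ) = ∑ a, ∑ b, star (x a) * x b *
      ((if a = b then 1 else 0) * ip ξ ξ) := by
    rw [Complex.ofReal_mul]
    have e1 : ((nsq ξ : ℝ) : ℂ) = ip ξ ξ := by rw [ip_self]; rfl
    rw [e1]
    unfold nsq
    rw [Complex.ofReal_sum, Finset.sum_mul]
    refine Finset.sum_congr rfl fun a _ => ?_
    rw [Finset.sum_eq_single a]
    · rw [if_pos rfl, one_mul, ← mul_star_self]
      ring
    · intro b _ hb
      rw [if_neg (Ne.symm hb)]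
      ring
    · simp
  rw [h2]
  simp only [Finset.mul_sum]
  rw [← Finset.sum_add_distrib]
  refine Finset.sum_congr rfl fun a _ => ?_
  rw [← Finset.sum_add_distrib]
  refine Finset.sum_congr rfl fun b _ => ?_
  rw [mul_comm (star (x a)), add_mul, add_mul]
  congr 1
  · rw [Finset.sum_mul, Finset.sum_mul]
    refine Finset.sum_congr rfl fun i _ => ?_
    rw [Finset.sum_mul, Finset.sum_mul]
    refine Finset.sum_congr rfl fun j _ => ?_
    ring
  · ring

theorem SG_lower (hT : TPos T) {N δ δ' : ℝ} (hN : 0 ≤ N) (h : δ' ≤ N * δ)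
    (x : Fin r → ℂ) (ξ : Fin n → ℂ) :
    (δ' - 1) * (nsq x * nsq ξ) ≤ (sx (SG T N δ) x ξ ξ).re := by
  obtain ⟨t, ht, hq⟩ := hT x ξ
  rw [sx_SG, hq, ← Complex.ofReal_mul, ← Complex.ofReal_mul, ← Complex.ofReal_add,
    Complex.ofReal_re]
  have h1 := mul_nonneg (nsq_nonneg x) (nsq_nonneg ξ)
  have h2 : (δ' - 1) * (nsq x * nsq ξ) ≤ (N * δ - 1) * (nsq x * nsq ξ) :=
    mul_le_mul_of_nonneg_right (by linarith) h1
  have h3 : 0 ≤ N * t := mul_nonneg hN ht
  linarith

/-- the matrix of curvature forms of the tensor `q (T + δ Id)` -/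
noncomputable def MG (T : Fin r → Fin r → Fin n → Fin n → ℤ) (q δ : ℂ) :
    Matrix (Fin r) (Fin r) (FormAlg n) :=
  Matrix.of fun a b => ∑ i, ∑ j,
    (q * (((T a b i j : ℤ) : ℂ) + δ * ((if a = b then 1 else 0) * (if i = j then 1 else 0)))) •
      wedge2 (dzf i) (dzbf j)

/-- the polynomial matrix -/
noncomputable def PG (T : Fin r → Fin r → Fin n → Fin n → ℤ) (q : ℂ) :
    Matrix (Fin r) (Fin r) (Polynomial (FormAlg n)) :=
  (MG T q 0).map Polynomial.C +
    Matrix.diagonal fun _ => Polynomial.X * Polynomial.C (q • ∑ i, wedge2 (dzf i) (dzbf i))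

theorem PG_map (q δ : ℂ) : (PG T q).map
    (Polynomial.evalRingHom (algebraMap ℂ (FormAlg n) δ)) = MG T q δ := by
  ext1 a b
  rw [Matrix.map_apply]
  unfold PG
  rw [Matrix.add_apply, Matrix.map_apply, map_add]
  have h1 : Polynomial.evalRingHom (algebraMap ℂ (FormAlg n) δ)
      (Polynomial.C (MG T q 0 a b)) = MG T q 0 a b := by simp
  have h2 : Polynomial.evalRingHom (algebraMap ℂ (FormAlg n) δ)
      ((Matrix.diagonal fun _ => Polynomial.X *
          Polynomial.C (q • ∑ i, wedge2 (dzf i) (dzbf i)) :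
        Matrix (Fin r) (Fin r) (Polynomial (FormAlg n))) a b) =
      (if a = b then (1 : ℂ) else 0) • (δ • (q • ∑ i, wedge2 (dzf i) (dzbf i))) := by
    by_cases h : a = b
    · subst h
      rw [Matrix.diagonal_apply_eq, if_pos rfl, one_smul, map_mul, Polynomial.coe_evalRingHom,
        Polynomial.eval_X, Polynomial.eval_C, Algebra.smul_def δ]
    · rw [Matrix.diagonal_apply_ne _ h, if_neg h, map_zero, zero_smul]
  rw [h1, h2]
  unfold MG
  rw [Matrix.of_apply, Matrix.of_apply, smul_smul, smul_smul, Finset.smul_sum,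
    ← Finset.sum_add_distrib]
  refine Finset.sum_congr rfl fun i _ => ?_
  have h3 : ((if a = b then (1 : ℂ) else 0) * δ * q) • (wedge2 (dzf i) (dzbf i) : FormAlg n) =
      ∑ j : Fin n,
      ((if a = b then (1 : ℂ) else 0) * δ * q * (if i = j then 1 else 0)) •
        (wedge2 (dzf i) (dzbf j) : FormAlg n) := by
    rw [Finset.sum_eq_single i]
    · simp
    · intro j _ hj
      rw [if_neg (Ne.symm hj), mul_zero, zero_smul]
    · simp
  rw [h3, ← Finset.sum_add_distrib]
  refine Finset.sum_congr rfl fun j _ => ?_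
  rw [← add_smul]
  congr 1
  ring

theorem continuous_schur (L : FormAlg n →ₗ[ℂ] ℂ) (q : ℂ) {k : ℕ} (lam : Fin k → ℕ) :
    Continuous fun δ : ℝ => L (schur (MG T q (δ : ℂ)) lam) := by
  have h : (fun δ : ℝ => L (schur (MG T q (δ : ℂ)) lam)) = fun δ : ℝ =>
      ∑ i ∈ Finset.range ((schur (PG T q) lam).natDegree + 1),
        ((δ : ℂ)) ^ i * L ((schur (PG T q) lam).coeff i) := by
    funext δ
    rw [← PG_map, schur_map, Polynomial.coe_evalRingHom, Polynomial.eval_eq_sum_range, map_sum]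
    refine Finset.sum_congr rfl fun i _ => ?_
    rw [← map_pow, mul_comm, ← Algebra.smul_def, map_smul, smul_eq_mul]
  rw [h]
  refine continuous_finsetSum _ fun i _ => ?_
  exact (Complex.continuous_ofReal.pow i).mul continuous_const

theorem ip_single' (i j : Fin n) :
    ip (Pi.single i (1 : ℂ) : Cn n) (Pi.single j (1 : ℂ)) = if i = j then 1 else 0 := by
  unfold ip
  rw [Finset.sum_eq_single i]
  · by_cases hij : i = j
    · subst hij; simp
    · simp [hij]
  · intro k _ hk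
    simp [hk]
  · simp

theorem curv_MG {τ η : ℝ} (c : Cutoff τ η) (N δ : ℝ) :
    (Complex.I / (2 * Real.pi)) • curvatureForm (h0 c (S := SG T N δ)) 0 =
      MG T (Complex.I / (2 * Real.pi) * N) δ := by
  ext1 a b
  unfold MG curvatureForm
  rw [Matrix.smul_apply, Matrix.of_apply, Matrix.of_apply, Finset.smul_sum]
  refine Finset.sum_congr rfl fun i _ => ?_
  rw [Finset.smul_sum]
  refine Finset.sum_congr rfl fun j _ => ?_
  rw [smul_smul, curv_h0_zero, Matrix.add_apply, Matrix.smul_apply, smul_eq_mul, sf_SG, ip_single']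
  have h : ∑ i', ∑ j', ((T a b i' j' : ℤ) : ℂ) * ((Pi.single i (1 : ℂ) : Cn n) i' *
      star ((Pi.single j (1 : ℂ) : Cn n) j')) = ((T a b i j : ℤ) : ℂ) := by
    rw [Finset.sum_eq_single i, Finset.sum_eq_single j]
    · simp
    · intro j' _ hj'
      simp [hj']
    · simp
    · intro i' _ hi'
      refine Finset.sum_eq_zero fun j' _ => ?_
      simp [Pi.single_apply, hi']
    · simp
  rw [h, Matrix.one_apply]
  congr 1
  push_cast
  ring

/-- Metrics on `O(1)^r` with prescribed curvature at a point, up to a small multiple of the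
identity. -/
theorem exists_gen (hsym : TSym T) (hpos : TPos T) (L : FormAlg n →ₗ[ℂ] ℂ) {k : ℕ}
    (lam : Fin k → ℕ) (M N : ℝ) (hN : 1 ≤ N)
    (hlt : (L (schur (MG T (Complex.I / (2 * Real.pi) * N) 0) lam)).re < -M) :
    ∃ h : Cn (n + 1) → Matrix (Fin r) (Fin r) ℂ, IsMetricOnO1 h ∧
      (∀ (i : Fin (n + 1)) (w : Cn n), GriffithsPositiveAt (inChart i h) w) ∧
      (L (schur ((Complex.I / (2 * Real.pi)) • curvatureForm (inChart 0 h) 0) lam)).re < -M ∧
      ∃ δ : ℝ, (Complex.I / (2 * Real.pi)) • curvatureForm (inChart 0 h) 0 =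
        MG T (Complex.I / (2 * Real.pi) * N) δ := by
  set q : ℂ := Complex.I / (2 * Real.pi) * N with hq
  have hcont : Continuous fun δ : ℝ => (L (schur (MG T q (δ : ℂ)) lam)).re :=
    Complex.continuous_re.comp (continuous_schur L q lam)
  have hlt' : (L (schur (MG T q ((0 : ℝ) : ℂ)) lam)).re < -M := by
    rw [Complex.ofReal_zero]; exact hlt
  have hev : ∀ᶠ δ : ℝ in 𝓝 (0 : ℝ), (L (schur (MG T q (δ : ℂ)) lam)).re < -M :=
    hcont.continuousAt.eventually_lt continuousAt_const hlt'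
  obtain ⟨ε, hε, hball⟩ := Metric.eventually_nhds_iff.1 hev
  have hδ0 : 0 < ε / 2 := by positivity
  have hδ : (L (schur (MG T q ((ε / 2 : ℝ) : ℂ)) lam)).re < -M := by
    apply hball
    rw [Real.dist_eq, sub_zero, abs_of_pos hδ0]
    linarith
  set δ : ℝ := ε / 2 with hδdef
  set δ' : ℝ := min 1 (N * δ) with hδ'
  have hδ'0 : 0 < δ' := lt_min one_pos (by positivity)
  have hδ'1 : δ' ≤ 1 := min_le_left _ _
  have hδ'2 : δ' ≤ N * δ := min_le_right _ _
  obtain ⟨K, hK⟩ := exists_Bdd (SG T N δ)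
  have hK0 : 0 ≤ K := hK.1
  have hτ : 0 < δ' / (4 * (K + 1)) := by positivity
  have hτe : (K + 1) * (δ' / (4 * (K + 1))) = δ' / 4 := by
    field_simp
  obtain ⟨c⟩ := exists_Cutoff hτ hτ
  have hτB : K * (δ' / (4 * (K + 1))) < 1 := by nlinarith
  refine ⟨HH c (SG T N δ), isMetric_HH c (SG_symm hsym N δ) hK hτ hτB,
    griffiths_chart c (SG_symm hsym N δ) hK hτ hτB hδ'0 hδ'1 (by nlinarith)
      (SG_lower hpos (by linarith) hδ'2), ?_, δ, ?_⟩
  · rw [inChart_zero, curv_MG]
    exact hδ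
  · rw [inChart_zero, curv_MG]

/-- The entries of `MG` are real. -/
theorem MG_real (N δ : ℝ) (a b : Fin r) :
    MG T (Complex.I / (2 * Real.pi) * N) δ a b ∈ RR n := by
  unfold MG
  rw [Matrix.of_apply]
  refine Subring.sum_mem _ fun i _ => Subring.sum_mem _ fun j _ => ?_
  have h := smul_mem_RR (1 / (2 * Real.pi) * N * ((T a b i j : ℤ) + δ *
    ((if a = b then 1 else 0) * (if i = j then 1 else 0)))) (xx_mem_RR (i, j))
  convert h using 1
  unfold xx
  rw [smul_smul]
  congr 1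
  split_ifs <;> push_cast <;> ring

theorem LL_MG_real (N δ : ℝ) {k : ℕ} (lam : Fin k → ℕ) :
    (LL n (schur (MG T (Complex.I / (2 * Real.pi) * N) δ) lam)).im = 0 :=
  LL_real_of_mem (schur_mem _ _ (MG_real N δ) _)

end Pool.Agent.Y88.GR
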