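import Mathlib

set_option autoImplicit false

/-! The coefficient of `∏_a Y_a ^ (length of column a)` in the Schur determinant of a partition. -/

namespace Pool.Agent.Y88.GR

open Finset

section kostka

variable {A : Type*} [CommRing A] {r k : ℕ}

/-- the elementary symmetric functions, for integers -/
noncomputable def ez (Y : Fin r → A) (m : ℤ) : A :=
  ∑ S ∈ univ.filter (fun S : Finset (Fin r) => (S.card : ℤ) = m), ∏ a ∈ S, Y a

/-- the number of rows longer than `a` -/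
def col (μ : Fin k → ℕ) (a : ℕ) : ℕ := (univ.filter fun j => a < μ j).card

/-- subsets with a large sum of weights are initial segments -/
theorem seg_le {J S : Finset (Fin k)} (hJ : ∀ i ∈ J, ∀ j ∉ J, i < j) (hc : S.card ≤ J.card) :
    ∑ j ∈ S, ((k : ℤ) - (j : ℕ)) ≤ ∑ j ∈ J, ((k : ℤ) - (j : ℕ)) ∧
      (∑ j ∈ S, ((k : ℤ) - (j : ℕ)) = ∑ j ∈ J, ((k : ℤ) - (j : ℕ)) → S = J) := by
  classical
  -- a threshold
  obtain ⟨c, hc0, hc1, hc2⟩ : ∃ c : ℤ, 0 ≤ c ∧ (∀ j ∈ J, c + 1 ≤ (k : ℤ) - (j : ℕ)) ∧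
      ∀ j ∉ J, (k : ℤ) - (j : ℕ) ≤ c := by
    by_cases hn : (univ \ J).Nonempty
    · obtain ⟨m, hm, hmin⟩ := (univ \ J).exists_min_image (fun j => (j : ℕ)) hn
      refine ⟨(k : ℤ) - (m : ℕ), ?_, ?_, ?_⟩
      · have := m.isLt; omega
      · intro j hj
        have h1 : j < m := hJ j hj m (by simpa using hm)
        have h2 : (j : ℕ) < m := h1
        omega
      · intro j hj
        have h1 := hmin j (by simpa using hj)
        omega
    · rw [Finset.not_nonempty_iff_eq_empty, Finset.sdiff_eq_empty_iff_subset] at hn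
      refine ⟨0, le_rfl, ?_, ?_⟩
      · intro j _
        have := j.isLt; omega
      · intro j hj
        exact absurd (hn (mem_univ j)) hj
  have e1 : ∑ j ∈ S, ((k : ℤ) - (j : ℕ)) = ∑ j ∈ S ∩ J, ((k : ℤ) - (j : ℕ)) +
      ∑ j ∈ S \ J, ((k : ℤ) - (j : ℕ)) := by
    rw [Finset.sum_inter_add_sum_sdiff S J]
  have e2 : ∑ j ∈ J, ((k : ℤ) - (j : ℕ)) = ∑ j ∈ S ∩ J, ((k : ℤ) - (j : ℕ)) +
      ∑ j ∈ J \ S, ((k : ℤ) - (j : ℕ)) := by
    rw [Finset.inter_comm, Finset.sum_inter_add_sum_sdiff J S]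
  have e3 : ∑ j ∈ S \ J, ((k : ℤ) - (j : ℕ)) ≤ ((S \ J).card : ℤ) * c := by
    rw [← nsmul_eq_mul]
    refine Finset.sum_le_card_nsmul _ _ _ fun j hj => hc2 j (Finset.mem_sdiff.1 hj).2
  have e4 : ((J \ S).card : ℤ) * (c + 1) ≤ ∑ j ∈ J \ S, ((k : ℤ) - (j : ℕ)) := by
    rw [← nsmul_eq_mul]
    refine Finset.card_nsmul_le_sum _ _ _ fun j hj => hc1 j (Finset.mem_sdiff.1 hj).1
  have e5 : (S \ J).card ≤ (J \ S).card := by
    have h1 := Finset.card_sdiff_add_card_inter S J
    have h2 := Finset.card_sdiff_add_card_inter J S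
    rw [Finset.inter_comm] at h2
    omega
  have e6 : ((S \ J).card : ℤ) * c ≤ ((J \ S).card : ℤ) * c := by
    apply mul_le_mul_of_nonneg_right _ hc0
    exact_mod_cast e5
  have e7 : (0 : ℤ) ≤ (J \ S).card := by positivity
  refine ⟨by nlinarith, fun h => ?_⟩
  have e8 : (J \ S).card = 0 := by
    have : ((J \ S).card : ℤ) ≤ 0 := by nlinarith
    omega
  rw [Finset.card_eq_zero, Finset.sdiff_eq_empty_iff_subset] at e8
  exact (Finset.eq_of_subset_of_card_le e8 hc).symm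

/-- the only choice of subsets which contributes -/
theorem unique_choice {μ : Fin k → ℕ} (hμ : Antitone μ) (σ : Equiv.Perm (Fin k))
    (f : Fin k → Finset (Fin r)) (hf : ∀ j, ((f j).card : ℤ) = (μ j : ℤ) - (j : ℕ) + (σ j : ℕ))
    (hc : ∀ a : Fin r, (univ.filter fun j => a ∈ f j).card ≤ col μ a) :
    σ = 1 ∧ ∀ j, f j = univ.filter fun a : Fin r => (a : ℕ) < μ j := by
  classical
  set w : Fin k → ℤ := fun j => (k : ℤ) - (j : ℕ) with hw
  set J : Fin r → Finset (Fin k) := fun a => univ.filter fun j => (a : ℕ) < μ j with hJ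
  set S : Fin r → Finset (Fin k) := fun a => univ.filter fun j => a ∈ f j with hS
  have hseg : ∀ a, ∀ i ∈ J a, ∀ j ∉ J a, i < j := by
    intro a i hi j hj
    simp only [hJ, mem_filter, mem_univ, true_and, not_lt] at hi hj
    by_contra hlt
    have := hμ (not_lt.1 hlt)
    omega
  have hM : ∀ a, ∑ j ∈ S a, w j ≤ ∑ j ∈ J a, w j ∧
      (∑ j ∈ S a, w j = ∑ j ∈ J a, w j → S a = J a) := fun a => seg_le (hseg a) (hc a)
  have e1 : ∑ a, ∑ j ∈ S a, w j = ∑ j, ((f j).card : ℤ) * w j := by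
    simp only [hS, Finset.sum_filter]
    rw [Finset.sum_comm]
    refine Finset.sum_congr rfl fun j _ => ?_
    rw [← Finset.sum_filter, Finset.sum_const, nsmul_eq_mul]
    congr 2
    congr 1
    ext a
    simp
  have hw0 : ∀ j, 0 ≤ w j := by
    intro j
    have := j.isLt
    simp only [hw]; omega
  have e2 : ∑ a, ∑ j ∈ J a, w j ≤ ∑ j, (μ j : ℤ) * w j := by
    simp only [hJ, Finset.sum_filter]
    rw [Finset.sum_comm]
    refine Finset.sum_le_sum fun j _ => ?_
    rw [← Finset.sum_filter, Finset.sum_const, nsmul_eq_mul]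
    apply mul_le_mul_of_nonneg_right _ (hw0 j)
    have : (univ.filter fun a : Fin r => (a : ℕ) < μ j).card ≤ (Finset.range (μ j)).card := by
      refine Finset.card_le_card_of_injOn (fun a => (a : ℕ)) ?_ ?_
      · intro a ha
        simp only [coe_filter, mem_univ, true_and, Set.mem_ofPred_eq] at ha
        simpa using ha
      · intro a _ b _ h
        exact Fin.ext h
    rw [Finset.card_range] at this
    exact_mod_cast this
  have e3 : ∑ a, ∑ j ∈ S a, w j ≤ ∑ a, ∑ j ∈ J a, w j := Finset.sum_le_sum fun a _ => (hM a).1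
  have e4 : ∑ j, ((f j).card : ℤ) * w j = ∑ j, (μ j : ℤ) * w j +
      ∑ j, (((σ j : ℕ) : ℤ) - (j : ℕ)) * w j := by
    rw [← Finset.sum_add_distrib]
    refine Finset.sum_congr rfl fun j _ => ?_
    rw [hf]; ring
  have e5 : ∑ j, (((σ j : ℕ) : ℤ) - (j : ℕ)) = 0 := by
    rw [Finset.sum_sub_distrib, Equiv.sum_comp σ (fun j : Fin k => ((j : ℕ) : ℤ)), sub_self]
  have e6 : ∑ j, (((σ j : ℕ) : ℤ) - (j : ℕ)) * w j =
      - ∑ j, (((σ j : ℕ) : ℤ) - (j : ℕ)) * (j : ℕ) := by
    have : ∀ j : Fin k, (((σ j : ℕ) : ℤ) - (j : ℕ)) * w j = (((σ j : ℕ) : ℤ) - (j : ℕ)) * k -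
        (((σ j : ℕ) : ℤ) - (j : ℕ)) * (j : ℕ) := by
      intro j; simp only [hw]; ring
    rw [Finset.sum_congr rfl fun j _ => this j, Finset.sum_sub_distrib, ← Finset.sum_mul, e5]
    ring
  have e7 : ∑ j, (((σ j : ℕ) : ℤ) - (j : ℕ)) ^ 2 = -2 * ∑ j, (((σ j : ℕ) : ℤ) - (j : ℕ)) * (j : ℕ) := by
    have h1 : ∑ j, ((σ j : ℕ) : ℤ) ^ 2 = ∑ j : Fin k, ((j : ℕ) : ℤ) ^ 2 :=
      Equiv.sum_comp σ (fun j : Fin k => ((j : ℕ) : ℤ) ^ 2)
    have h2 : ∀ j : Fin k, (((σ j : ℕ) : ℤ) - (j : ℕ)) ^ 2 = (((σ j : ℕ) : ℤ) ^ 2 - ((j : ℕ) : ℤ) ^ 2)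
        + (-2 * ((((σ j : ℕ) : ℤ) - (j : ℕ)) * (j : ℕ))) := by
      intro j; ring
    rw [Finset.sum_congr rfl fun j _ => h2 j, Finset.sum_add_distrib, Finset.sum_sub_distrib, h1,
      ← Finset.mul_sum]
    ring
  have e8 : ∑ j, (((σ j : ℕ) : ℤ) - (j : ℕ)) ^ 2 ≤ 0 := by
    rw [e7]
    linarith
  have e9 : ∀ j, σ j = j := by
    intro j
    have h1 := (Finset.sum_eq_zero_iff_of_nonneg (fun j (_ : j ∈ univ) =>
      sq_nonneg ((((σ j : ℕ) : ℤ) - (j : ℕ))))).1
      (le_antisymm e8 (Finset.sum_nonneg fun j _ => sq_nonneg _)) j (mem_univ j)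
    have h2 := pow_eq_zero_iff (two_ne_zero) |>.1 h1
    apply Fin.ext
    omega
  have hσ : σ = 1 := Equiv.ext e9
  have e10 : ∑ j, (((σ j : ℕ) : ℤ) - (j : ℕ)) * w j = 0 := by
    refine Finset.sum_eq_zero fun j _ => ?_
    rw [e9 j]; ring
  have e11 : ∑ a, ∑ j ∈ S a, w j = ∑ a, ∑ j ∈ J a, w j := by linarith
  have e12 : ∀ a ∈ univ, ∑ j ∈ S a, w j = ∑ j ∈ J a, w j :=
    (Finset.sum_eq_sum_iff_of_le fun a _ => (hM a).1).1 e11
  refine ⟨hσ, fun j => ?_⟩
  ext a
  have h := (hM a).2 (e12 a (mem_univ a))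
  have h2 : j ∈ S a ↔ j ∈ J a := by rw [h]
  simp only [hS, hJ, mem_filter, mem_univ, true_and] at h2
  simp only [mem_filter, mem_univ, true_and]
  exact h2

theorem prod_prod_eq (Y : Fin r → A) (f : Fin k → Finset (Fin r)) :
    ∏ j, ∏ a ∈ f j, Y a = ∏ a, Y a ^ (univ.filter fun j => a ∈ f j).card := by
  classical
  have h : ∀ j, ∏ a ∈ f j, Y a = ∏ a, if a ∈ f j then Y a else 1 := by
    intro j
    rw [← Finset.prod_filter]
    congr 1
    ext a
    simp
  rw [Finset.prod_congr rfl fun j _ => h j, Finset.prod_comm]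
  refine Finset.prod_congr rfl fun a _ => ?_
  rw [← Finset.prod_filter, Finset.prod_const]

/-- **The Schur determinant in elements of small nilpotency order.** -/
theorem kostka (Y : Fin r → A) {μ : Fin k → ℕ} (hμ : Antitone μ) (hr : ∀ j, μ j ≤ r)
    (hY : ∀ a : Fin r, Y a ^ (col μ a + 1) = 0) :
    (Matrix.of fun j l : Fin k => ez Y ((μ j : ℤ) - (j : ℕ) + (l : ℕ))).det =
      ∏ a : Fin r, Y a ^ col μ a := by
  classical
  rw [← Matrix.det_transpose, Matrix.det_apply]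
  have key : ∀ σ : Equiv.Perm (Fin k), ∏ j, (Matrix.of fun j l : Fin k =>
      ez Y ((μ j : ℤ) - (j : ℕ) + (l : ℕ))).transpose (σ j) j =
      ∑ f ∈ Fintype.piFinset (fun j : Fin k => univ.filter (fun S : Finset (Fin r) =>
        (S.card : ℤ) = (μ j : ℤ) - (j : ℕ) + (σ j : ℕ))),
        ∏ a, Y a ^ (univ.filter fun j => a ∈ f j).card := by
    intro σ
    simp only [Matrix.transpose_apply, Matrix.of_apply, ez]
    rw [Finset.prod_univ_sum]
    refine Finset.sum_congr rfl fun f _ => ?_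
    exact prod_prod_eq Y f
  have hz : ∀ (σ : Equiv.Perm (Fin k)) (f : Fin k → Finset (Fin r)),
      (∀ j, ((f j).card : ℤ) = (μ j : ℤ) - (j : ℕ) + (σ j : ℕ)) →
      ¬ (σ = 1 ∧ ∀ j, f j = univ.filter fun a : Fin r => (a : ℕ) < μ j) →
      ∏ a, Y a ^ (univ.filter fun j => a ∈ f j).card = 0 := by
    intro σ f hf hne
    have : ∃ a : Fin r, col μ a < (univ.filter fun j => a ∈ f j).card := by
      by_contra hcon
      push Not at hcon
      exact hne (unique_choice hμ σ f hf hcon)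
    obtain ⟨a, ha⟩ := this
    refine Finset.prod_eq_zero (mem_univ a) ?_
    obtain ⟨d, hd⟩ := Nat.exists_eq_add_of_lt ha
    rw [hd, show col μ a + d + 1 = (col μ a + 1) + d by ring, pow_add, hY a, zero_mul]
  rw [Finset.sum_congr rfl fun σ _ => by rw [key σ]]
  rw [Finset.sum_eq_single 1]
  · rw [Equiv.Perm.sign_one, one_smul,
      Finset.sum_eq_single (fun j : Fin k => univ.filter fun a : Fin r => (a : ℕ) < μ j)]
    · refine Finset.prod_congr rfl fun a _ => ?_
      congr 1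
      unfold col
      congr 1
      ext j
      simp
    · intro f hf hne
      rw [Fintype.mem_piFinset] at hf
      refine hz 1 f (fun j => by simpa using hf j) ?_
      rintro ⟨_, h⟩
      exact hne (funext h)
    · intro hnot
      exfalso
      apply hnot
      rw [Fintype.mem_piFinset]
      intro j
      simp only [mem_filter, mem_univ, true_and, Equiv.Perm.coe_one, id]
      have : (univ.filter fun a : Fin r => (a : ℕ) < μ j).card = μ j := by
        have h1 : (univ.filter fun a : Fin r => (a : ℕ) < μ j).card = (Finset.range (μ j)).card := by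
          refine Finset.card_bij (fun a _ => (a : ℕ)) ?_ ?_ ?_
          · intro a ha
            simpa using ha
          · intro a _ b _ h
            exact Fin.ext h
          · intro b hb
            rw [Finset.mem_range] at hb
            exact ⟨⟨b, lt_of_lt_of_le hb (hr j)⟩, by simpa using hb, rfl⟩
        rw [h1, Finset.card_range]
      rw [this]
      ring
  · intro σ _ hσ
    rw [Finset.sum_eq_zero, smul_zero]
    intro f hf
    rw [Fintype.mem_piFinset] at hf
    exact hz σ f (fun j => by simpa using hf j) (fun h => hσ h.1)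
  · intro h
    exact absurd (mem_univ _) h

end kostka

end Pool.Agent.Y88.GR
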