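import Pool.Agent.Y88.GR.Val
import Pool.Agent.Y88.GR.Defs

set_option autoImplicit false
set_option linter.unusedSectionVars false

namespace Pool.Agent.Y88.GR

open Finset
open scoped ComplexOrder Matrix
open Pool.Agent.Y240.Gr
open Pool.Agent.W517.Gr

theorem chernZ_eq {n r : ℕ} (h : Cn n → Matrix (Fin r) (Fin r) ℂ) (z : Cn n) (m : ℤ) :
    chernZ h z m = cz ((Complex.I / (2 * Real.pi)) • curvatureForm h z) m := by
  unfold chernZ cz
  by_cases h0 : m = 0
  · subst h0
    rw [if_pos rfl, if_pos le_rfl, Int.toNat_zero, cc_zero]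
  · rw [if_neg h0]
    by_cases h1 : m < 0
    · rw [if_pos (Or.inl h1), if_neg (not_le.2 h1)]
    · rw [if_pos (not_lt.1 h1)]
      by_cases h2 : (r : ℤ) < m
      · rw [if_pos (Or.inr h2), cc_gt]
        rw [Fintype.card_fin]
        omega
      · rw [if_neg (not_or.2 ⟨h1, h2⟩)]
        rfl

theorem schurForm_eq {n r k : ℕ} (h : Cn n → Matrix (Fin r) (Fin r) ℂ) (lam : Fin k → ℕ)
    (z : Cn n) : schurForm h lam z =
      schur ((Complex.I / (2 * Real.pi)) • curvatureForm h z) lam := by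
  unfold schurForm schur
  congr 1
  ext j l
  rw [Matrix.of_apply, Matrix.of_apply, chernZ_eq]

section ext

variable {r k m : ℕ}

/-- extension of a tensor by zero to more directions -/
def TE (m : ℕ) (T : Fin r → Fin r → Fin k → Fin k → ℤ) (a b : Fin r) (i j : Fin (k + m)) : ℤ :=
  Fin.append (fun i' => Fin.append (fun j' => T a b i' j') (fun _ : Fin m => 0) j)
    (fun _ : Fin m => 0) i

theorem TE_ll (T : Fin r → Fin r → Fin k → Fin k → ℤ) (a b : Fin r) (i j : Fin k) :
    TE m T a b (Fin.castAdd m i) (Fin.castAdd m j) = T a b i j := by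
  unfold TE
  rw [Fin.append_left, Fin.append_left]

theorem TE_lr (T : Fin r → Fin r → Fin k → Fin k → ℤ) (a b : Fin r) (i : Fin k) (j : Fin m) :
    TE m T a b (Fin.castAdd m i) (Fin.natAdd k j) = 0 := by
  unfold TE
  rw [Fin.append_left, Fin.append_right]

theorem TE_r (T : Fin r → Fin r → Fin k → Fin k → ℤ) (a b : Fin r) (i : Fin m)
    (j : Fin (k + m)) : TE m T a b (Fin.natAdd k i) j = 0 := by
  unfold TE
  rw [Fin.append_right]

theorem TE_symm {T : Fin r → Fin r → Fin k → Fin k → ℤ} (hT : TSym T) : TSym (TE m T) := by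
  intro a b i j
  refine Fin.addCases (fun i => ?_) (fun i => ?_) i <;>
    refine Fin.addCases (fun j => ?_) (fun j => ?_) j
  · rw [TE_ll, TE_ll, hT]
  · rw [TE_lr, TE_r]
  · rw [TE_lr, TE_r]
  · rw [TE_r, TE_r]

theorem TE_pos {T : Fin r → Fin r → Fin k → Fin k → ℤ} (hT : TPos T) : TPos (TE m T) := by
  intro x ξ
  obtain ⟨t, ht, h⟩ := hT x fun i => ξ (Fin.castAdd m i)
  refine ⟨t, ht, ?_⟩
  rw [← h]
  refine Finset.sum_congr rfl fun a _ => Finset.sum_congr rfl fun b _ => ?_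
  rw [Fin.sum_univ_add]
  have h2 : ∑ i : Fin m, ∑ j, ((TE m T a b (Fin.natAdd k i) j : ℤ) : ℂ) *
      (star (x a) * x b * (ξ (Fin.natAdd k i) * star (ξ j))) = 0 := by
    refine Finset.sum_eq_zero fun i _ => Finset.sum_eq_zero fun j _ => ?_
    rw [TE_r]
    simp
  rw [h2, add_zero]
  refine Finset.sum_congr rfl fun i _ => ?_
  rw [Fin.sum_univ_add]
  have h3 : ∑ j : Fin m, ((TE m T a b (Fin.castAdd m i) (Fin.natAdd k j) : ℤ) : ℂ) *
      (star (x a) * x b * (ξ (Fin.castAdd m i) * star (ξ (Fin.natAdd k j)))) = 0 := by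
    refine Finset.sum_eq_zero fun j _ => ?_
    rw [TE_lr]
    simp
  rw [h3, add_zero]
  refine Finset.sum_congr rfl fun j _ => ?_
  rw [TE_ll]

end ext

/-- The metrics, with parameters. -/
theorem main {r' k' m : ℕ} {K : ℕ} (hK : 0 < K) (lam μ : Fin K → ℕ) (hμ : Antitone μ)
    (hr : ∀ j, μ j ≤ r') (hsum : ∑ j, μ j = k')
    (h0 : lam ⟨0, hK⟩ = μ ⟨0, hK⟩ + 8) (hlam : ∀ j : Fin K, (j : ℕ) ≠ 0 → lam j = μ j) (M : ℝ) :
    ∃ h : Cn (8 + k' + m + 1) → Matrix (Fin (8 + r')) (Fin (8 + r')) ℂ, IsMetricOnO1 h ∧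
      (∀ (i : Fin (8 + k' + m + 1)) (w : Cn (8 + k' + m)), GriffithsPositiveAt (inChart i h) w) ∧
      (evalForm (realFrame fun i : Fin (8 + k') =>
        (Pi.single (Fin.castAdd m i) 1 : Cn (8 + k' + m)))
        (schurForm (inChart 0 h) lam 0).1).re < -M ∧
      (evalForm (realFrame fun i : Fin (8 + k') =>
        (Pi.single (Fin.castAdd m i) 1 : Cn (8 + k' + m)))
        (schurForm (inChart 0 h) lam 0).1).im = 0 := by
  obtain ⟨c, hc⟩ := exists_columns (r' := r') (fun a => col μ a) (by rw [sum_col μ hr, hsum])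
  set k := 8 + k' with hk
  set N : ℝ := max 1 (Real.pi ^ k * (|M| + 1)) with hN
  have hN1 : 1 ≤ N := le_max_left _ _
  have hN2 : Real.pi ^ k * (|M| + 1) ≤ N := le_max_right _ _
  have hpi : (Real.pi : ℂ) ≠ 0 := by exact_mod_cast Real.pi_ne_zero
  have hqI : (Complex.I / (2 * Real.pi) * N) * (-2 * Complex.I) = ((N / Real.pi : ℝ) : ℂ) := by
    push_cast
    field_simp
    rw [Complex.I_sq]
    ring
  let L : FormAlg (k + m) →ₗ[ℂ] ℂ := (LL k).comp (Phi k m).toLinearMap
  have hL : ∀ u : FormAlg (k + m), L u = evalForm (realFrame fun i : Fin k =>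
      (Pi.single (Fin.castAdd m i) 1 : Cn (k + m))) u.1 := fun u => (ev_restrict k m u).symm
  have hT : (fun a b i j => TE m (TC c) a b (Fin.castAdd m i) (Fin.castAdd m j)) = TC c := by
    funext a b i j
    exact TE_ll _ _ _ _ _
  have hval : L (schur (MG (TE m (TC c)) (Complex.I / (2 * Real.pi) * N) 0) lam) =
      ((-(80 * (∏ a : Fin r', ((col μ a).factorial : ℝ)) * (N / Real.pi) ^ k) : ℝ) : ℂ) := by
    rw [hL, ev_schur, hT, value c _ hK lam μ hμ hr hc h0 hlam, hqI]
    push_cast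
    ring
  have hlt : (L (schur (MG (TE m (TC c)) (Complex.I / (2 * Real.pi) * N) 0) lam)).re < -M := by
    rw [hval, Complex.ofReal_re, neg_lt_neg_iff]
    have h1 : N ≤ N ^ k := le_self_pow₀ hN1 (by omega)
    have h2 : |M| + 1 ≤ (N / Real.pi) ^ k := by
      rw [div_pow, le_div_iff₀ (by positivity), mul_comm]
      exact hN2.trans h1
    have h3 : (1 : ℝ) ≤ ∏ a : Fin r', ((col μ a).factorial : ℝ) := by
      rw [← Nat.cast_prod]
      exact_mod_cast Finset.prod_pos fun a _ => Nat.factorial_pos _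
    have h4 : M ≤ |M| := le_abs_self M
    have h5 : 0 ≤ |M| := abs_nonneg M
    have h6 : (1 : ℝ) ≤ 80 * ∏ a : Fin r', ((col μ a).factorial : ℝ) := by linarith
    calc M < |M| + 1 := by linarith
      _ ≤ (N / Real.pi) ^ k := h2
      _ ≤ 80 * (∏ a : Fin r', ((col μ a).factorial : ℝ)) * (N / Real.pi) ^ k :=
        le_mul_of_one_le_left (by linarith) h6
  obtain ⟨h, h1, h2, h3, δ, h4⟩ := exists_gen (TE_symm (m := m) (TC_symm c))
    (TE_pos (m := m) (TC_pos c)) L lam M N hN1 hlt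
  refine ⟨h, h1, h2, ?_, ?_⟩
  · rw [schurForm_eq, ← hL]
    exact h3
  · rw [schurForm_eq, h4, ev_schur]
    exact LL_MG_real N δ lam

theorem not_positive {n k : ℕ} (hn : k ≤ n) (u : FormAlg n)
    (h : (evalForm (realFrame fun i : Fin k => (Pi.single (Fin.castLE hn i) 1 : Cn n)) u.1).re < 0) :
    ¬ IsPositiveForm k u := by
  intro hp
  have hli : LinearIndependent ℂ fun i : Fin k => (Pi.single (Fin.castLE hn i) 1 : Cn n) := by
    have := (Pi.basisFun ℂ (Fin n)).linearIndependent.comp (Fin.castLE hn)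
      (Fin.castLE_injective hn)
    convert this using 1
    funext i
    simp
  have h8 := (Complex.le_def.1 (hp _ hli)).1
  rw [Complex.zero_re] at h8
  exact absurd h8 (not_le.2 h)

end Pool.Agent.Y88.GR
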