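import Pool.Agent.Y88.GR.Gen

set_option autoImplicit false
set_option linter.unusedSectionVars false

/-! Restriction of forms to a coordinate subspace. -/

namespace Pool.Agent.Y88.GR

open Finset
open Pool.Agent.Y240.Gr
open Pool.Agent.W517.Gr (Cn FormAlg Forms wedge2 dzf dzbf evalForm realFrame CForm oneForm)

/-- extension by zero -/
noncomputable def VV (k m : ℕ) : Cn k →ₗ[ℂ] Cn (k + m) where
  toFun x := Fin.append x 0
  map_add' x y := by
    funext i
    refine Fin.addCases (fun i => ?_) (fun i => ?_) i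
    · simp only [Pi.add_apply, Fin.append_left]
    · simp only [Pi.add_apply, Fin.append_right, Pi.zero_apply, add_zero]
  map_smul' t x := by
    funext i
    refine Fin.addCases (fun i => ?_) (fun i => ?_) i
    · simp only [Pi.smul_apply, Fin.append_left, RingHom.id_apply]
    · simp only [Pi.smul_apply, Fin.append_right, Pi.zero_apply, smul_zero]

/-- restriction to the first coordinates -/
noncomputable def WW (k m : ℕ) : Cn (k + m) →ₗ[ℂ] Cn k := LinearMap.funLeft ℂ ℂ (Fin.castAdd m)

/-- pull-back of one-forms -/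
noncomputable def pb {k n : ℕ} (V : Cn k →ₗ[ℂ] Cn n) : CForm n →ₗ[ℂ] CForm k where
  toFun φ := φ ∘ₗ V.restrictScalars ℝ
  map_add' _ _ := rfl
  map_smul' _ _ := rfl

theorem pb_comp (k m : ℕ) : pb (VV k m) ∘ₗ pb (WW k m) = LinearMap.id := by
  refine LinearMap.ext fun φ => LinearMap.ext fun x => ?_
  change φ (WW k m (VV k m x)) = φ x
  congr 1
  funext i
  change Fin.append x 0 (Fin.castAdd m i) = x i
  rw [Fin.append_left]

theorem map_surj (k m : ℕ) (y : Forms k) : ∃ x : Forms (k + m),
    ExteriorAlgebra.map (pb (VV k m)) x = y := by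
  refine ⟨ExteriorAlgebra.map (pb (WW k m)) y, ?_⟩
  have h : (ExteriorAlgebra.map (pb (VV k m))).comp (ExteriorAlgebra.map (pb (WW k m))) =
      AlgHom.id ℂ _ := by
    rw [ExteriorAlgebra.map_comp_map, pb_comp, ExteriorAlgebra.map_id]
  exact congrArg (fun f => f y) h

/-- the restriction of even forms -/
noncomputable def Phi (k m : ℕ) : FormAlg (k + m) →ₐ[ℂ] FormAlg k :=
  AlgHom.codRestrict ((ExteriorAlgebra.map (pb (VV k m))).comp
    (Subalgebra.center ℂ (Forms (k + m))).val) (Subalgebra.center ℂ (Forms k)) (by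
      intro u
      rw [Subalgebra.mem_center_iff]
      intro y
      obtain ⟨x, rfl⟩ := map_surj k m y
      have hu := Subalgebra.mem_center_iff.1 u.2 x
      change ExteriorAlgebra.map (pb (VV k m)) x * ExteriorAlgebra.map (pb (VV k m)) u.1 =
        ExteriorAlgebra.map (pb (VV k m)) u.1 * ExteriorAlgebra.map (pb (VV k m)) x
      rw [← map_mul, ← map_mul, hu])

theorem Phi_coe (k m : ℕ) (u : FormAlg (k + m)) :
    (Phi k m u).1 = ExteriorAlgebra.map (pb (VV k m)) u.1 := rfl

theorem evalForm_map {n k K : ℕ} (V : Cn k →ₗ[ℂ] Cn n) (v : Fin K → Cn k) (u : Forms n) :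
    evalForm (fun s => V (v s)) u = evalForm v (ExteriorAlgebra.map (pb V) u) := by
  have h : evalForm (fun s => V (v s)) =
      (evalForm v).comp (ExteriorAlgebra.map (pb V)).toLinearMap := by
    apply ExteriorAlgebra.lhom_ext
    intro i
    ext φ
    change evalForm (fun s => V (v s)) (ExteriorAlgebra.ιMulti ℂ i φ) =
      evalForm v (ExteriorAlgebra.map (pb V) (ExteriorAlgebra.ιMulti ℂ i φ))
    rw [ExteriorAlgebra.map_apply_ιMulti]
    unfold evalForm
    rw [ExteriorAlgebra.liftAlternating_apply_ιMulti,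
      ExteriorAlgebra.liftAlternating_apply_ιMulti]
    by_cases hi : i = K
    · subst hi
      rw [dif_pos rfl, dif_pos rfl]
      rfl
    · rw [dif_neg hi, dif_neg hi]
      rfl
  exact congrArg (fun f => f u) h

theorem realFrame_map {n k K : ℕ} (V : Cn k →ₗ[ℂ] Cn n) (v : Fin K → Cn k) :
    realFrame (fun i => V (v i)) = fun s => V (realFrame v s) := by
  funext s
  unfold realFrame
  split_ifs
  · rfl
  · rw [map_smul]

theorem VV_single (k m : ℕ) (i : Fin k) :
    VV k m (Pi.single i 1) = (Pi.single (Fin.castAdd m i) 1 : Cn (k + m)) := by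
  funext j
  refine Fin.addCases (fun j => ?_) (fun j => ?_) j
  · change Fin.append (Pi.single i (1 : ℂ) : Cn k) 0 (Fin.castAdd m j) = _
    rw [Fin.append_left, Pi.single_apply, Pi.single_apply]
    simp
  · change Fin.append (Pi.single i (1 : ℂ) : Cn k) 0 (Fin.natAdd k j) = _
    rw [Fin.append_right, Pi.single_apply, if_neg]
    · rfl
    · intro h
      have := congrArg Fin.val h
      simp at this
      have := i.isLt
      omega

theorem ev_restrict (k m : ℕ) (u : FormAlg (k + m)) :
    evalForm (realFrame fun i : Fin k => (Pi.single (Fin.castAdd m i) 1 : Cn (k + m))) u.1 =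
      LL k (Phi k m u) := by
  have h : (fun i : Fin k => (Pi.single (Fin.castAdd m i) 1 : Cn (k + m))) =
      fun i => VV k m (Pi.single i 1) := by
    funext i
    exact (VV_single k m i).symm
  rw [h, realFrame_map, evalForm_map, LL_apply, Phi_coe]

theorem Phi_wedge (k m : ℕ) (a b : CForm (k + m)) :
    Phi k m (wedge2 a b) = wedge2 (pb (VV k m) a) (pb (VV k m) b) := by
  apply Subtype.ext
  rw [Phi_coe]
  change ExteriorAlgebra.map (pb (VV k m)) (ExteriorAlgebra.ι ℂ a * ExteriorAlgebra.ι ℂ b) =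
    ExteriorAlgebra.ι ℂ (pb (VV k m) a) * ExteriorAlgebra.ι ℂ (pb (VV k m) b)
  rw [map_mul, ExteriorAlgebra.map_apply_ι, ExteriorAlgebra.map_apply_ι]

theorem pb_dzf_left (k m : ℕ) (i : Fin k) : pb (VV k m) (dzf (Fin.castAdd m i)) = dzf i := by
  refine LinearMap.ext fun x => ?_
  change Fin.append x 0 (Fin.castAdd m i) = x i
  rw [Fin.append_left]

theorem pb_dzf_right (k m : ℕ) (i : Fin m) : pb (VV k m) (dzf (Fin.natAdd k i)) = 0 := by
  refine LinearMap.ext fun x => ?_
  change Fin.append x 0 (Fin.natAdd k i) = 0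
  rw [Fin.append_right]
  rfl

theorem pb_dzbf_left (k m : ℕ) (i : Fin k) : pb (VV k m) (dzbf (Fin.castAdd m i)) = dzbf i := by
  refine LinearMap.ext fun x => ?_
  change (starRingEnd ℂ) (Fin.append x 0 (Fin.castAdd m i)) = (starRingEnd ℂ) (x i)
  rw [Fin.append_left]

theorem pb_dzbf_right (k m : ℕ) (i : Fin m) : pb (VV k m) (dzbf (Fin.natAdd k i)) = 0 := by
  refine LinearMap.ext fun x => ?_
  change (starRingEnd ℂ) (Fin.append x 0 (Fin.natAdd k i)) = 0
  rw [Fin.append_right]
  exact map_zero _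

theorem wedge2_zero_left {n : ℕ} (b : CForm n) : wedge2 (0 : CForm n) b = 0 := by
  apply Subtype.ext
  change ExteriorAlgebra.ι ℂ (0 : CForm n) * ExteriorAlgebra.ι ℂ b = 0
  rw [map_zero, zero_mul]

theorem wedge2_zero_right {n : ℕ} (a : CForm n) : wedge2 a (0 : CForm n) = 0 := by
  apply Subtype.ext
  change ExteriorAlgebra.ι ℂ a * ExteriorAlgebra.ι ℂ (0 : CForm n) = 0
  rw [map_zero, mul_zero]

variable {r k m : ℕ}

theorem Phi_MG (T : Fin r → Fin r → Fin (k + m) → Fin (k + m) → ℤ) (q δ : ℂ) :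
    (MG T q δ).map (Phi k m) =
      MG (fun a b i j => T a b (Fin.castAdd m i) (Fin.castAdd m j)) q δ := by
  ext1 a b
  unfold MG
  rw [Matrix.map_apply, Matrix.of_apply, Matrix.of_apply, map_sum, Fin.sum_univ_add]
  have h2 : ∑ i : Fin m, Phi k m (∑ j, (q * (((T a b (Fin.natAdd k i) j : ℤ) : ℂ) +
      δ * ((if a = b then 1 else 0) * (if Fin.natAdd k i = j then 1 else 0)))) •
      wedge2 (dzf (Fin.natAdd k i)) (dzbf j)) = 0 := by
    refine Finset.sum_eq_zero fun i _ => ?_
    rw [map_sum]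
    refine Finset.sum_eq_zero fun j _ => ?_
    rw [map_smul, Phi_wedge, pb_dzf_right, wedge2_zero_left, smul_zero]
  rw [h2, add_zero]
  refine Finset.sum_congr rfl fun i _ => ?_
  rw [map_sum, Fin.sum_univ_add]
  have h3 : ∑ j : Fin m, Phi k m ((q * (((T a b (Fin.castAdd m i) (Fin.natAdd k j) : ℤ) : ℂ) +
      δ * ((if a = b then 1 else 0) * (if Fin.castAdd m i = Fin.natAdd k j then 1 else 0)))) •
      wedge2 (dzf (Fin.castAdd m i)) (dzbf (Fin.natAdd k j))) = 0 := by
    refine Finset.sum_eq_zero fun j _ => ?_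
    rw [map_smul, Phi_wedge, pb_dzbf_right, wedge2_zero_right, smul_zero]
  rw [h3, add_zero]
  refine Finset.sum_congr rfl fun j _ => ?_
  rw [map_smul, Phi_wedge, pb_dzf_left, pb_dzbf_left]
  have h4 : (if Fin.castAdd m i = Fin.castAdd m j then (1 : ℂ) else 0) =
      if i = j then 1 else 0 := by
    by_cases h : i = j
    · rw [if_pos h, if_pos (by rw [h])]
    · rw [if_neg h, if_neg]
      intro h'
      exact h (Fin.castAdd_injective k m h')
  rw [h4]

/-- The value of the Schur forms on a coordinate frame. -/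
theorem ev_schur (T : Fin r → Fin r → Fin (k + m) → Fin (k + m) → ℤ) (q δ : ℂ) {K : ℕ}
    (lam : Fin K → ℕ) :
    evalForm (realFrame fun i : Fin k => (Pi.single (Fin.castAdd m i) 1 : Cn (k + m)))
      (schur (MG T q δ) lam).1 =
      LL k (schur (MG (fun a b i j => T a b (Fin.castAdd m i) (Fin.castAdd m j)) q δ) lam) := by
  rw [ev_restrict]
  have h := schur_map (Phi k m : FormAlg (k + m) →+* FormAlg k) (MG T q δ) lam
  have h2 : (MG T q δ).map (Phi k m : FormAlg (k + m) →+* FormAlg k) =
      MG (fun a b i j => T a b (Fin.castAdd m i) (Fin.castAdd m j)) q δ := Phi_MG T q δ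
  rw [h2] at h
  rw [h]
  rfl

end Pool.Agent.Y88.GR
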