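import Pool.Agent.Y88.GR.Kostka
import Pool.Agent.Y240.Gr.Alg2

set_option autoImplicit false
set_option linter.unusedSectionVars false

/-! The Schur determinant of a block matrix. -/

namespace Pool.Agent.Y88.GR

open Finset Pool.Agent.Y240.Gr

section coeffs

variable {A : Type*} [CommRing A] {r' : ℕ}

theorem coeff_prod (Y : Fin r' → A) (m : ℕ) :
    (∏ a, (1 + Polynomial.X * Polynomial.C (Y a))).coeff m = ez Y (m : ℤ) := by
  classical
  rw [Finset.prod_one_add, Polynomial.finsetSum_coeff]
  unfold ez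
  rw [Finset.sum_filter, Finset.powerset_univ]
  refine Finset.sum_congr rfl fun S _ => ?_
  rw [Finset.prod_mul_distrib, Finset.prod_const, ← map_prod, Polynomial.coeff_mul_C,
    Polynomial.coeff_X_pow]
  by_cases h : m = S.card
  · subst h; simp
  · rw [if_neg h, if_neg, zero_mul]
    intro h'
    exact h (by exact_mod_cast h'.symm)

theorem ez_neg (Y : Fin r' → A) {m : ℤ} (hm : m < 0) : ez Y m = 0 := by
  classical
  unfold ez
  refine Finset.sum_eq_zero fun S hS => ?_
  rw [Finset.mem_filter] at hS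
  exfalso
  have := hS.2
  omega

theorem ez_big (Y : Fin r' → A) {s : ℕ} (hs : ∀ a : Fin r', s ≤ (a : ℕ) → Y a = 0) {m : ℤ}
    (hm : (s : ℤ) < m) : ez Y m = 0 := by
  classical
  unfold ez
  refine Finset.sum_eq_zero fun S hS => ?_
  rw [Finset.mem_filter] at hS
  have hc : s < S.card := by have := hS.2; omega
  have : ∃ a ∈ S, s ≤ (a : ℕ) := by
    by_contra hcon
    push Not at hcon
    have h1 : S.card ≤ (Finset.range s).card := by
      refine Finset.card_le_card_of_injOn (fun a => (a : ℕ)) ?_ ?_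
      · intro a ha
        simpa using hcon a ha
      · intro a _ b _ h
        exact Fin.ext h
    rw [Finset.card_range] at h1
    omega
  obtain ⟨a, ha, hsa⟩ := this
  exact Finset.prod_eq_zero ha (hs a hsa)

/-- The block matrix with `G` in the upper left corner and `Y` on the rest of the diagonal. -/
def blkD (G : Matrix (Fin 8) (Fin 8) A) (Y : Fin r' → A) :
    Matrix (Fin (8 + r')) (Fin (8 + r')) A :=
  (Matrix.fromBlocks G 0 0 (Matrix.diagonal Y)).submatrix finSumFinEquiv.symm finSumFinEquiv.symm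

theorem cc_blkD (G : Matrix (Fin 8) (Fin 8) A) (Y : Fin r' → A) (m : ℕ) :
    cc (blkD G Y) m = ∑ p ∈ antidiagonal m, cc G p.1 * ez Y (p.2 : ℤ) := by
  rw [cc_eq]
  unfold blkD
  rw [cpoly_submatrix, cpoly_fromBlocks, cpoly_diagonal, Polynomial.coeff_mul]
  refine Finset.sum_congr rfl fun p _ => ?_
  rw [coeff_prod, cc_eq]

variable {k : ℕ}

/-- The Schur determinant of the block matrix. -/
theorem schur_blkD (G : Matrix (Fin 8) (Fin 8) A) (Y : Fin r' → A) (Ω D : A)
    (hdet : G.det = D * Ω) (hΩ : ∀ a b, Ω * G a b = 0)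
    (lam μ : Fin (k + 1) → ℕ) (h0 : lam 0 = μ 0 + 8) (hlam : ∀ j, j ≠ 0 → lam j = μ j)
    (hs : ∀ a : Fin r', μ 0 ≤ (a : ℕ) → Y a = 0) :
    schur (blkD G Y) lam = D * Ω *
      (Matrix.of fun j l : Fin (k + 1) => ez Y ((μ j : ℤ) - (j : ℕ) + (l : ℕ))).det := by
  classical
  have h8 : cc G 8 = D * Ω := by
    have := cc_card G
    rw [Fintype.card_fin] at this
    rw [this, hdet]
  have hgt : ∀ m, 8 < m → cc G m = 0 := fun m hm => cc_gt G (by rw [Fintype.card_fin]; exact hm)
  have hmodG : ∀ m, Ω * cc G m = Ω * (if m = 0 then 1 else 0) := by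
    intro m
    rw [← cc_of_zero (A := A) (ι := Fin 8) m]
    exact cc_congr_mod Ω G 0 (fun i j => by rw [hΩ]; simp) m
  have hmod : ∀ m : ℤ, Ω * cz (blkD G Y) m = Ω * ez Y m := by
    intro m
    unfold cz
    split_ifs with hm
    · obtain ⟨m, rfl⟩ := Int.eq_ofNat_of_zero_le hm
      rw [Int.toNat_natCast, cc_blkD, Finset.mul_sum, Finset.sum_eq_single (0, m)]
      · rw [← mul_assoc, hmodG, if_pos rfl, mul_one]
      · intro p hp hne
        rw [← mul_assoc, hmodG, if_neg, mul_zero, zero_mul]
        intro h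
        apply hne
        rw [Finset.HasAntidiagonal.mem_antidiagonal] at hp
        ext
        · exact h
        · simp only; omega
      · intro h
        exact absurd (by simp) h
    · rw [ez_neg Y (not_le.1 hm)]
  have hbig : ∀ m : ℕ, μ 0 + 8 < m → cc (blkD G Y) m = 0 := by
    intro m hm
    rw [cc_blkD]
    refine Finset.sum_eq_zero fun p hp => ?_
    rw [Finset.HasAntidiagonal.mem_antidiagonal] at hp
    by_cases h : 8 < p.1
    · rw [hgt _ h, zero_mul]
    · rw [ez_big Y hs (by omega), mul_zero]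
  have htop : cc (blkD G Y) (μ 0 + 8) = D * Ω * ez Y (μ 0 : ℤ) := by
    rw [cc_blkD, Finset.sum_eq_single (8, μ 0), h8]
    · intro p hp hne
      rw [Finset.HasAntidiagonal.mem_antidiagonal] at hp
      by_cases h : 8 < p.1
      · rw [hgt _ h, zero_mul]
      · by_cases h2 : p.1 = 8
        · exfalso
          apply hne
          ext
          · exact h2
          · simp only; omega
        · rw [ez_big Y hs (by omega), mul_zero]
    · intro h
      exact absurd (by rw [Finset.HasAntidiagonal.mem_antidiagonal]; ring) h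
  set E : Matrix (Fin (k + 1)) (Fin (k + 1)) A :=
    Matrix.of fun j l : Fin (k + 1) => cz (blkD G Y) ((lam j : ℤ) - (j : ℕ) + (l : ℕ)) with hE
  set N : Matrix (Fin (k + 1)) (Fin (k + 1)) A :=
    Matrix.of fun j l : Fin (k + 1) => ez Y ((μ j : ℤ) - (j : ℕ) + (l : ℕ)) with hN
  set E' : Matrix (Fin (k + 1)) (Fin (k + 1)) A := E.updateRow 0 (Pi.single 0 1) with hE'
  set N' : Matrix (Fin (k + 1)) (Fin (k + 1)) A := N.updateRow 0 (Pi.single 0 1) with hN'
  have hrowE : E = E'.updateRow 0 ((D * Ω * ez Y (μ 0 : ℤ)) • Pi.single 0 (1 : A)) := by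
    ext j l
    by_cases hj : j = 0
    · subst hj
      rw [Matrix.updateRow_self, hE, Matrix.of_apply, Pi.smul_apply, smul_eq_mul]
      have e : ((lam 0 : ℤ) - ((0 : Fin (k + 1)) : ℕ) + (l : ℕ)) = ((μ 0 + 8 + l : ℕ) : ℤ) := by
        rw [h0]; push_cast; simp
      rw [e]
      unfold cz
      rw [if_pos (by positivity), Int.toNat_natCast]
      by_cases hl : l = 0
      · subst hl
        rw [Pi.single_eq_same, mul_one, Fin.val_zero, add_zero, htop]
      · rw [Pi.single_eq_of_ne hl, mul_zero]
        apply hbig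
        have : (l : ℕ) ≠ 0 := fun h => hl (Fin.ext h)
        omega
    · rw [Matrix.updateRow_ne hj, hE', Matrix.updateRow_ne hj]
  have hrowN : N = N'.updateRow 0 ((ez Y (μ 0 : ℤ)) • Pi.single 0 (1 : A)) := by
    ext j l
    by_cases hj : j = 0
    · subst hj
      rw [Matrix.updateRow_self, hN, Matrix.of_apply, Pi.smul_apply, smul_eq_mul]
      by_cases hl : l = 0
      · subst hl
        rw [Pi.single_eq_same, mul_one]
        have e : ((μ 0 : ℤ) - ((0 : Fin (k + 1)) : ℕ) + ((0 : Fin (k + 1)) : ℕ)) = (μ 0 : ℤ) := by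
          ring
        rw [e]
      · rw [Pi.single_eq_of_ne hl, mul_zero]
        apply ez_big Y hs
        have : (l : ℕ) ≠ 0 := fun h => hl (Fin.ext h)
        simp only [Fin.val_zero]
        omega
    · rw [Matrix.updateRow_ne hj, hN', Matrix.updateRow_ne hj]
  have hdE : E.det = (D * Ω * ez Y (μ 0 : ℤ)) * E'.det := by
    have e1 : E.det = (E'.updateRow 0 ((D * Ω * ez Y (μ 0 : ℤ)) • Pi.single 0 (1 : A))).det :=
      congrArg Matrix.det hrowE
    have e2 : E'.updateRow 0 (Pi.single 0 (1 : A)) = E' := by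
      rw [hE', Matrix.updateRow_idem]
    rw [e1, Matrix.det_updateRow_smul, e2]
  have hdN : N.det = (ez Y (μ 0 : ℤ)) * N'.det := by
    have e1 : N.det = (N'.updateRow 0 ((ez Y (μ 0 : ℤ)) • Pi.single 0 (1 : A))).det :=
      congrArg Matrix.det hrowN
    have e2 : N'.updateRow 0 (Pi.single 0 (1 : A)) = N' := by
      rw [hN', Matrix.updateRow_idem]
    rw [e1, Matrix.det_updateRow_smul, e2]
  have hEN : Ω * E'.det = Ω * N'.det := by
    apply det_congr_mod
    intro j l
    by_cases hj : j = 0
    · subst hj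
      rw [hE', hN', Matrix.updateRow_self, Matrix.updateRow_self]
    · rw [hE', hN', Matrix.updateRow_ne hj, Matrix.updateRow_ne hj, hE, hN, Matrix.of_apply,
        Matrix.of_apply, hlam j hj]
      exact hmod _
  change E.det = _
  rw [hdE, hdN]
  calc D * Ω * ez Y (μ 0 : ℤ) * E'.det = D * ez Y (μ 0 : ℤ) * (Ω * E'.det) := by ring
    _ = D * ez Y (μ 0 : ℤ) * (Ω * N'.det) := by rw [hEN]
    _ = _ := by ring

end coeffs

section partition

variable {k r' : ℕ}

/-- the sum of the column lengths -/
theorem sum_col (μ : Fin k → ℕ) (hr : ∀ j, μ j ≤ r') : ∑ a : Fin r', col μ a = ∑ j, μ j := by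
  classical
  unfold col
  simp only [Finset.card_filter]
  rw [Finset.sum_comm]
  refine Finset.sum_congr rfl fun j _ => ?_
  rw [← Finset.card_filter]
  have h1 : (univ.filter fun a : Fin r' => (a : ℕ) < μ j).card = (Finset.range (μ j)).card := by
    refine Finset.card_bij (fun a _ => (a : ℕ)) ?_ ?_ ?_
    · intro a ha
      simpa using ha
    · intro a _ b _ h
      exact Fin.ext h
    · intro b hb
      rw [Finset.mem_range] at hb
      exact ⟨⟨b, lt_of_lt_of_le hb (hr j)⟩, by simpa using hb, rfl⟩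
  rw [h1, Finset.card_range]

/-- an assignment of the boxes of a diagram to the columns -/
theorem exists_columns (m : Fin r' → ℕ) {k' : ℕ} (h : ∑ a, m a = k') :
    ∃ c : Fin k' → Fin r', ∀ a, (univ.filter fun i => c i = a).card = m a := by
  classical
  have hc : Fintype.card (Σ a : Fin r', Fin (m a)) = k' := by
    rw [Fintype.card_sigma]
    simpa using h
  let e : Fin k' ≃ (Σ a : Fin r', Fin (m a)) := (Fintype.equivFinOfCardEq hc).symm
  refine ⟨fun i => (e i).1, fun a => ?_⟩
  have : (univ.filter fun i => (e i).1 = a).card = (univ : Finset (Fin (m a))).card := by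
    symm
    refine Finset.card_bij (fun t _ => e.symm ⟨a, t⟩) ?_ ?_ ?_
    · intro t _
      simp
    · intro t _ t' _ h
      have := e.symm.injective h
      simpa using this
    · intro i hi
      simp only [mem_filter, mem_univ, true_and] at hi
      subst hi
      exact ⟨(e i).2, mem_univ _, by simp⟩
  rw [this, Finset.card_univ, Fintype.card_fin]

end partition

end Pool.Agent.Y88.GR
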