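import Pool.Agent.Y88.GR.Res
import Pool.Agent.Y88.GR.SchurE

set_option autoImplicit false
set_option linter.unusedSectionVars false

/-! The tensor of a partition with gap eight and the value of its Schur form. -/

namespace Pool.Agent.Y88.GR

open Finset
open scoped ComplexOrder Matrix
open Pool.Agent.Y240.Gr
open Pool.Agent.W517.Gr (Cn R0 qf qf_nonneg R0_symm mul_star_self FormAlg Forms wedge2
  dzf dzbf wedge2_rel wedge2_self_left wedge2_self_right evalForm realFrame eval_top CForm)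

variable {r' k' : ℕ}

/-- the tensor, on sum types -/
def TCs (c : Fin k' → Fin r') : Fin 8 ⊕ Fin r' → Fin 8 ⊕ Fin r' → Fin 8 ⊕ Fin k' →
    Fin 8 ⊕ Fin k' → ℤ
  | Sum.inl a, Sum.inl b, Sum.inl i, Sum.inl j => R0 a b i j
  | Sum.inr a, Sum.inr b, Sum.inr i, Sum.inr j => if a = b ∧ i = j ∧ c i = a then 1 else 0
  | _, _, _, _ => 0

/-- the tensor `R0 ⊕ (line bundles, the a-th one positive in the directions i with c i = a)` -/
def TC (c : Fin k' → Fin r') (a b : Fin (8 + r')) (i j : Fin (8 + k')) : ℤ :=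
  TCs c (finSumFinEquiv.symm a) (finSumFinEquiv.symm b) (finSumFinEquiv.symm i)
    (finSumFinEquiv.symm j)

theorem TCs_symm (c : Fin k' → Fin r') (a b : Fin 8 ⊕ Fin r') (i j : Fin 8 ⊕ Fin k') :
    TCs c b a j i = TCs c a b i j := by
  rcases a with a | a <;> rcases b with b | b <;> rcases i with i | i <;> rcases j with j | j <;>
    simp only [TCs]
  · exact R0_symm a b i j
  · congr 1
    apply propext
    constructor
    · rintro ⟨h1, h2, h3⟩
      exact ⟨h1.symm, h2.symm, by rw [← h2, h3, h1]⟩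
    · rintro ⟨h1, h2, h3⟩
      exact ⟨h1.symm, h2.symm, by rw [← h2, h3, h1]⟩

theorem TC_symm (c : Fin k' → Fin r') : TSym (TC c) := fun _ _ _ _ => TCs_symm c _ _ _ _

/-- the quadratic form of the tensor -/
theorem TC_pos (c : Fin k' → Fin r') : TPos (TC c) := by
  intro x ξ
  have e : ∑ a, ∑ b, ∑ i, ∑ j, ((TC c a b i j : ℤ) : ℂ) *
      (star (x a) * x b * (ξ i * star (ξ j))) =
      ∑ a : Fin 8 ⊕ Fin r', ∑ b : Fin 8 ⊕ Fin r', ∑ i : Fin 8 ⊕ Fin k', ∑ j : Fin 8 ⊕ Fin k',
        ((TCs c a b i j : ℤ) : ℂ) * (star (x (finSumFinEquiv a)) * x (finSumFinEquiv b) *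
          (ξ (finSumFinEquiv i) * star (ξ (finSumFinEquiv j)))) := by
    rw [← finSumFinEquiv.sum_comp]
    refine Finset.sum_congr rfl fun a _ => ?_
    rw [← finSumFinEquiv.sum_comp]
    refine Finset.sum_congr rfl fun b _ => ?_
    rw [← finSumFinEquiv.sum_comp]
    refine Finset.sum_congr rfl fun i _ => ?_
    rw [← finSumFinEquiv.sum_comp]
    refine Finset.sum_congr rfl fun j _ => ?_
    simp only [TC, Equiv.symm_apply_apply]
  rw [e]
  simp only [Fintype.sum_sum_type, TCs, Int.cast_zero, zero_mul, Finset.sum_const_zero, add_zero,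
    zero_add]
  obtain ⟨t, ht, hq⟩ := qf_nonneg (fun a => x (finSumFinEquiv (Sum.inl a)))
    (fun i => ξ (finSumFinEquiv (Sum.inl i)))
  unfold qf at hq
  rw [hq]
  set s : ℝ := ∑ a : Fin r', ∑ i : Fin k', (if c i = a then
    Complex.normSq (x (finSumFinEquiv (Sum.inr a))) *
      Complex.normSq (ξ (finSumFinEquiv (Sum.inr i))) else 0) with hs
  have hs0 : 0 ≤ s := by
    refine Finset.sum_nonneg fun a _ => Finset.sum_nonneg fun i _ => ?_
    split_ifs
    · exact mul_nonneg (Complex.normSq_nonneg _) (Complex.normSq_nonneg _)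
    · exact le_rfl
  refine ⟨t + s, by positivity, ?_⟩
  rw [Complex.ofReal_add]
  congr 1
  rw [hs, Complex.ofReal_sum]
  refine Finset.sum_congr rfl fun a _ => ?_
  rw [Finset.sum_eq_single a]
  · rw [Complex.ofReal_sum]
    refine Finset.sum_congr rfl fun i _ => ?_
    rw [Finset.sum_eq_single i]
    · by_cases h : c i = a
      · rw [if_pos ⟨rfl, rfl, h⟩, if_pos h, Complex.ofReal_mul, ← mul_star_self, ← mul_star_self]
        push_cast
        ring
      · rw [if_neg (fun h' => h h'.2.2), if_neg h]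
        simp
    · intro j _ hj
      rw [if_neg (fun h' => hj h'.2.1.symm)]
      simp
    · simp
  · intro b _ hb
    refine Finset.sum_eq_zero fun i _ => Finset.sum_eq_zero fun j _ => ?_
    rw [if_neg (fun h' => hb h'.1.symm)]
    simp
  · simp

/-- the `a`-th of the last diagonal entries -/
noncomputable def YC (c : Fin k' → Fin r') (q : ℂ) (a : Fin r') : FormAlg (8 + k') :=
  q • ∑ i ∈ univ.filter (fun i => c i = a), om (Fin.natAdd 8 i) (Fin.natAdd 8 i)

theorem YC_pow (c : Fin k' → Fin r') (q : ℂ) (a : Fin r') :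
    YC c q a ^ (univ.filter fun i => c i = a).card =
      algebraMap ℂ (FormAlg (8 + k')) (q ^ (univ.filter fun i => c i = a).card *
        ((univ.filter fun i => c i = a).card).factorial) *
      ∏ i ∈ univ.filter (fun i => c i = a), om (Fin.natAdd 8 i) (Fin.natAdd 8 i) := by
  unfold YC
  have h := (pow_sum_sq_zero (fun i : Fin k' => om (Fin.natAdd 8 i) (Fin.natAdd 8 i))
    (fun i => wedge2_self_left _ _ _) (univ.filter fun i => c i = a)).1
  rw [smul_pow, h, Algebra.smul_def, map_mul, map_natCast]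
  ring

theorem YC_pow_succ (c : Fin k' → Fin r') (q : ℂ) (a : Fin r') :
    YC c q a ^ ((univ.filter fun i => c i = a).card + 1) = 0 := by
  unfold YC
  have h := (pow_sum_sq_zero (fun i : Fin k' => om (Fin.natAdd 8 i) (Fin.natAdd 8 i))
    (fun i => wedge2_self_left _ _ _) (univ.filter fun i => c i = a)).2
  rw [smul_pow, h, smul_zero]

theorem MG_TC (c : Fin k' → Fin r') (q : ℂ) : MG (TC c) q 0 = blkD (GG k' q) (YC c q) := by
  ext1 a b
  obtain ⟨a, rfl⟩ := finSumFinEquiv.surjective a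
  obtain ⟨b, rfl⟩ := finSumFinEquiv.surjective b
  unfold MG blkD
  rw [Matrix.of_apply, Matrix.submatrix_apply, Equiv.symm_apply_apply, Equiv.symm_apply_apply,
    ← finSumFinEquiv.sum_comp]
  have e1 : ∀ i : Fin 8 ⊕ Fin k', ∑ j : Fin (8 + k'),
      (q * (((TC c (finSumFinEquiv a) (finSumFinEquiv b) (finSumFinEquiv i) j : ℤ) : ℂ) +
        0 * ((if (finSumFinEquiv a : Fin (8 + r')) = finSumFinEquiv b then 1 else 0) *
          (if finSumFinEquiv i = j then 1 else 0)))) •
            (wedge2 (dzf (finSumFinEquiv i)) (dzbf j) : FormAlg (8 + k')) =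
      ∑ j : Fin 8 ⊕ Fin k', (q * ((TCs c a b i j : ℤ) : ℂ)) •
        om (finSumFinEquiv i) (finSumFinEquiv j) := by
    intro i
    rw [← finSumFinEquiv.sum_comp]
    refine Finset.sum_congr rfl fun j _ => ?_
    simp only [TC, Equiv.symm_apply_apply, zero_mul, add_zero, om]
  rw [Finset.sum_congr rfl fun i _ => e1 i]
  rcases a with a | a <;> rcases b with b | b <;>
    simp only [Fintype.sum_sum_type, TCs, Int.cast_zero, mul_zero, zero_smul,
      Finset.sum_const_zero, add_zero, zero_add, finSumFinEquiv_apply_left,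
      finSumFinEquiv_apply_right, Matrix.fromBlocks_apply₁₁, Matrix.fromBlocks_apply₁₂,
      Matrix.fromBlocks_apply₂₁, Matrix.fromBlocks_apply₂₂, Matrix.zero_apply]
  · unfold GG
    rw [Matrix.smul_apply, Matrix.of_apply, Finset.smul_sum]
    refine Finset.sum_congr rfl fun i _ => ?_
    rw [Finset.smul_sum]
    refine Finset.sum_congr rfl fun j _ => ?_
    rw [smul_smul]
  · by_cases hab : a = b
    · subst hab
      rw [Matrix.diagonal_apply_eq]
      unfold YC
      rw [Finset.smul_sum, Finset.sum_filter]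
      refine Finset.sum_congr rfl fun i _ => ?_
      rw [Finset.sum_eq_single i]
      · by_cases h : c i = a
        · rw [if_pos ⟨rfl, rfl, h⟩, if_pos h]
          simp
        · rw [if_neg (fun h' => h h'.2.2), if_neg h]
          simp
      · intro j _ hj
        rw [if_neg (fun h' => hj h'.2.1.symm)]
        simp
      · simp
    · rw [Matrix.diagonal_apply_ne _ hab]
      refine Finset.sum_eq_zero fun i _ => Finset.sum_eq_zero fun j _ => ?_
      rw [if_neg (fun h' => hab h'.1)]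
      simp

/-- the Schur determinant of the block matrix, for a nonempty index set -/
theorem schur_blkD' {A : Type*} [CommRing A] (G : Matrix (Fin 8) (Fin 8) A) (Y : Fin r' → A)
    (Ω D : A) (hdet : G.det = D * Ω) (hΩ : ∀ a b, Ω * G a b = 0) {K : ℕ} (hK : 0 < K)
    (lam μ : Fin K → ℕ) (h0 : lam ⟨0, hK⟩ = μ ⟨0, hK⟩ + 8)
    (hlam : ∀ j : Fin K, (j : ℕ) ≠ 0 → lam j = μ j)
    (hs : ∀ a : Fin r', μ ⟨0, hK⟩ ≤ (a : ℕ) → Y a = 0) :
    schur (blkD G Y) lam = D * Ω *
      (Matrix.of fun j l : Fin K => ez Y ((μ j : ℤ) - (j : ℕ) + (l : ℕ))).det := by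
  obtain ⟨K, rfl⟩ := Nat.exists_eq_succ_of_ne_zero hK.ne'
  exact schur_blkD G Y Ω D hdet hΩ lam μ h0 (fun j hj => hlam j fun h => hj (Fin.ext h)) hs

/-- the value of the Schur form -/
theorem value (c : Fin k' → Fin r') (q : ℂ) {K : ℕ} (hK : 0 < K) (lam μ : Fin K → ℕ)
    (hμ : Antitone μ) (hr : ∀ j, μ j ≤ r')
    (hc : ∀ a : Fin r', (univ.filter fun i => c i = a).card = col μ a)
    (h0 : lam ⟨0, hK⟩ = μ ⟨0, hK⟩ + 8) (hlam : ∀ j : Fin K, (j : ℕ) ≠ 0 → lam j = μ j) :
    LL (8 + k') (schur (MG (TC c) q 0) lam) =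
      (-80 * ∏ a : Fin r', ((col μ a).factorial : ℂ)) * (q * (-2 * Complex.I)) ^ (8 + k') := by
  have hz : ∀ a : Fin r', μ ⟨0, hK⟩ ≤ (a : ℕ) → YC c q a = 0 := by
    intro a ha
    have h1 : col μ a = 0 := by
      unfold col
      rw [Finset.card_eq_zero, Finset.filter_eq_empty_iff]
      intro j _
      have : μ j ≤ μ ⟨0, hK⟩ := hμ (Fin.mk_le_of_le_val (Nat.zero_le _))
      omega
    have h2 := hc a
    rw [h1, Finset.card_eq_zero] at h2
    unfold YC
    rw [h2]
    simp
  have hY : ∀ a : Fin r', YC c q a ^ (col μ a + 1) = 0 := by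
    intro a
    rw [← hc a]
    exact YC_pow_succ c q a
  rw [MG_TC, schur_blkD' (GG k' q) (YC c q) (O8 k')
    (algebraMap ℂ (FormAlg (8 + k')) (q ^ 8 * (-80))) (GG_det q) (O8_GG q) hK lam μ h0 hlam hz,
    kostka (YC c q) hμ hr hY]
  have h3 : ∏ a : Fin r', YC c q a ^ col μ a =
      algebraMap ℂ (FormAlg (8 + k')) (q ^ k' * ∏ a : Fin r', ((col μ a).factorial : ℂ)) *
        ∏ i : Fin k', om (Fin.natAdd 8 i) (Fin.natAdd 8 i) := by
    have h4 : ∀ a : Fin r', YC c q a ^ col μ a =
        algebraMap ℂ (FormAlg (8 + k')) (q ^ (univ.filter fun i => c i = a).card *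
          ((col μ a).factorial : ℂ)) *
        ∏ i ∈ univ.filter (fun i => c i = a), om (Fin.natAdd 8 i) (Fin.natAdd 8 i) := by
      intro a
      have := YC_pow c q a
      rw [hc a] at this
      rw [this, hc a]
    rw [Finset.prod_congr rfl fun a _ => h4 a, Finset.prod_mul_distrib, ← map_prod,
      Finset.prod_mul_distrib, Finset.prod_pow_eq_pow_sum]
    have h5 : ∑ a : Fin r', (univ.filter fun i => c i = a).card = k' := by
      have := Finset.card_eq_sum_card_fiberwise (f := c) (s := univ) (t := univ)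
        (fun _ _ => Finset.mem_coe.2 (mem_univ _))
      rw [← this, Finset.card_univ, Fintype.card_fin]
    rw [h5]
    congr 1
    exact Finset.prod_fiberwise univ c fun i => om (Fin.natAdd 8 i) (Fin.natAdd 8 i)
  rw [h3]
  have h : algebraMap ℂ (FormAlg (8 + k')) (q ^ 8 * (-80)) * O8 k' *
      (algebraMap ℂ (FormAlg (8 + k')) (q ^ k' * ∏ a : Fin r', ((col μ a).factorial : ℂ)) *
        ∏ i : Fin k', om (Fin.natAdd 8 i) (Fin.natAdd 8 i)) =
      ((q ^ 8 * (-80)) * (q ^ k' * ∏ a : Fin r', ((col μ a).factorial : ℂ))) •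
        ∏ i : Fin (8 + k'), wedge2 (dzf i) (dzbf i) := by
    rw [Fin.prod_univ_add, Algebra.smul_def, map_mul (algebraMap ℂ (FormAlg (8 + k')))
      (q ^ 8 * (-80)) (q ^ k' * ∏ a : Fin r', ((col μ a).factorial : ℂ))]
    unfold O8 om
    ring
  rw [h, map_smul, LL_apply, eval_top, smul_eq_mul, mul_pow q, pow_add q]
  ring

end Pool.Agent.Y88.GR
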